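import Pool.Agent.H174.GP.StD

set_option autoImplicit false

open MeasureTheory ProbabilityTheory Finset Filter Topology

namespace Pool.Agent.H102.GP174

open Pool.Agent.H174.GP

theorem cast_sum_aux (d k : ℕ) (g : Fin d → ℕ) :
    ((∑ l : Fin d, (min ((l : ℕ) + 1) k) * g l : ℕ) : ℤ) =
      ∑ l : Fin d, ((min ((l : ℕ) + 1) k : ℕ) : ℤ) * (g l : ℤ) := by
  rw [Nat.cast_sum]
  exact Finset.sum_congr rfl fun l _ => Nat.cast_mul _ _

theorem gp_domnec (h1 : S_rowsum) (h2 : S_colsum) (h3 : S_dual1) :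
    Pool.Agent.H174.GP.S_domnec := by
  intro d d' g h g' h' hsum hdom k hk hk'
  constructor
  · have e := hdom k
    rw [h1 d' g' h' k hk', h1 d g h k hk] at e
    have e2 : ((k * d' + ∑ l : Fin d', (min ((l : ℕ) + 1) k) * g' l : ℕ) : ℤ) ≤
        ((k * d + ∑ l : Fin d, (min ((l : ℕ) + 1) k) * g l : ℕ) : ℤ) := by exact_mod_cast e
    rw [Nat.cast_add, Nat.cast_add, cast_sum_aux, cast_sum_aux, Nat.cast_mul, Nat.cast_mul] at e2
    linarith
  · have e := h3 (toP d' g' h') (toP d g h) hsum.symm hdom k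
    rw [h2 d g h k hk, h2 d' g' h' k hk'] at e
    have e2 : ((d * k + ∑ l : Fin d, (min ((l : ℕ) + 1) k) * h l : ℕ) : ℤ) ≤
        ((d' * k + ∑ l : Fin d', (min ((l : ℕ) + 1) k) * h' l : ℕ) : ℤ) := by exact_mod_cast e
    rw [Nat.cast_add, Nat.cast_add, cast_sum_aux, cast_sum_aux, Nat.cast_mul, Nat.cast_mul] at e2
    linarith

end Pool.Agent.H102.GP174
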